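import Pool.Agent.TH774.TD.Slow

set_option autoImplicit false

namespace Pool.Agent.Helper67.TD

open Filter Topology

/-! ### Four lazy walkers -/

/-- The states of the schedule. -/
inductive St
  | s0 (u v : ℕ)
  | s1 (u v : ℕ)
  | s2 (u v : ℕ)
  | s3 (u v : ℕ)

namespace St

def u : St → ℕ
  | s0 u _ => u
  | s1 u _ => u
  | s2 u _ => u
  | s3 u _ => u

def v : St → ℕ
  | s0 _ v => v
  | s1 _ v => v
  | s2 _ v => v
  | s3 _ v => v

/-- Position of the first walker. -/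
def q1 : St → ℕ
  | s0 u _ => u + 1
  | s1 u _ => u + 1
  | s2 u _ => u + 1
  | s3 u _ => u

/-- Position of the second walker. -/
def q2 : St → ℕ
  | s0 u _ => u
  | s1 u _ => u + 1
  | s2 u _ => u + 2
  | s3 u _ => u

/-- Position of the third walker. -/
def q3 : St → ℕ
  | s0 _ v => v
  | s1 _ v => v + 1
  | s2 _ v => v + 1
  | s3 _ v => v + 1

/-- Position of the fourth walker. -/
def q4 : St → ℕ
  | s0 _ v => v
  | s1 _ v => v
  | s2 _ v => v + 1
  | s3 _ v => v + 2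

/-- Validity of a state. -/
def Ok (g h : ℕ → Prop) : St → Prop
  | s0 u _ => g u
  | s1 u v => g u ∧ h v
  | s2 u v => g u ∧ h v
  | s3 _ v => h v

open Classical in
/-- The next state. -/
noncomputable def nxt (g h : ℕ → Prop) : St → St
  | s0 u v => if h v then s1 u v else s0 u (v + 1)
  | s1 u v => s2 u v
  | s2 u v => s3 (u + 2) v
  | s3 u v => if g u then s0 u (v + 2) else s3 (u + 1) v

theorem ok_nxt {g h : ℕ → Prop} {s : St} (hs : s.Ok g h) : (nxt g h s).Ok g h := by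
  cases s with
  | s0 u v =>
    by_cases hv : h v
    · simp only [nxt, hv, if_true]
      exact ⟨hs, hv⟩
    · simp only [nxt, hv, if_false]
      exact hs
  | s1 u v => exact hs
  | s2 u v => exact hs.2
  | s3 u v =>
    by_cases hu : g u
    · simp only [nxt, hu, if_true]
      exact hu
    · simp only [nxt, hu, if_false]
      exact hs

/-- Each walker stays or makes one step. -/
theorem step (g h : ℕ → Prop) (s : St) :
    (s.q1 ≤ (nxt g h s).q1 ∧ (nxt g h s).q1 ≤ s.q1 + 1) ∧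
    (s.q2 ≤ (nxt g h s).q2 ∧ (nxt g h s).q2 ≤ s.q2 + 1) ∧
    (s.q3 ≤ (nxt g h s).q3 ∧ (nxt g h s).q3 ≤ s.q3 + 1) ∧
    (s.q4 ≤ (nxt g h s).q4 ∧ (nxt g h s).q4 ≤ s.q4 + 1) := by
  cases s with
  | s0 u v =>
    by_cases hv : h v
    · simp only [nxt, hv, if_true, q1, q2, q3, q4]
      omega
    · simp only [nxt, hv, if_false, q1, q2, q3, q4]
      omega
  | s1 u v =>
    simp only [nxt, q1, q2, q3, q4]
    omega
  | s2 u v =>
    simp only [nxt, q1, q2, q3, q4]
    omega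
  | s3 u v =>
    by_cases hu : g u
    · simp only [nxt, hu, if_true, q1, q2, q3, q4]
      omega
    · simp only [nxt, hu, if_false, q1, q2, q3, q4]
      omega

theorem uv_le (s : St) : s.u ≤ s.q1 ∧ s.u ≤ s.q2 ∧ s.v ≤ s.q3 ∧ s.v ≤ s.q4 := by
  cases s <;> simp only [u, v, q1, q2, q3, q4] <;> omega

end St

/-- The state at time `n`. -/
noncomputable def st (g h : ℕ → Prop) (s : St) (n : ℕ) : St := (St.nxt g h)^[n] s

theorem st_succ (g h : ℕ → Prop) (s : St) (n : ℕ) : st g h s (n + 1) = St.nxt g h (st g h s n) := by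
  unfold st
  rw [Function.iterate_succ_apply']

theorem st_add (g h : ℕ → Prop) (s : St) (n k : ℕ) : st g h s (n + k) = st g h (st g h s n) k := by
  unfold st
  rw [Nat.add_comm, Function.iterate_add_apply]

theorem ok_st {g h : ℕ → Prop} {s : St} (hs : s.Ok g h) (n : ℕ) : (st g h s n).Ok g h := by
  induction n with
  | zero => exact hs
  | succ n ih =>
    rw [st_succ]
    exact St.ok_nxt ih

/-- From a state of kind 0 we reach kind 3. -/
theorem reach3 {g h : ℕ → Prop} (d : ℕ) : ∀ (u v : ℕ), h (v + d) →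
    ∃ k, ∃ v' ≥ v, st g h (.s0 u v) k = .s3 (u + 2) v' := by
  induction d with
  | zero =>
    intro u v hv
    rw [Nat.add_zero] at hv
    refine ⟨3, v, le_rfl, ?_⟩
    have h1 : St.nxt g h (.s0 u v) = .s1 u v := by
      simp only [St.nxt]
      rw [if_pos hv]
    change St.nxt g h (St.nxt g h (St.nxt g h (.s0 u v))) = _
    rw [h1]
    rfl
  | succ d ih =>
    intro u v hv
    by_cases hv' : h v
    · refine ⟨3, v, le_rfl, ?_⟩
      have h1 : St.nxt g h (.s0 u v) = .s1 u v := by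
        simp only [St.nxt]
        rw [if_pos hv']
      change St.nxt g h (St.nxt g h (St.nxt g h (.s0 u v))) = _
      rw [h1]
      rfl
    · obtain ⟨k, v', h1, h2⟩ := ih u (v + 1) (by rwa [Nat.add_assoc, Nat.add_comm 1 d])
      refine ⟨1 + k, v', by omega, ?_⟩
      rw [st_add]
      have h3 : st g h (.s0 u v) 1 = .s0 u (v + 1) := by
        change St.nxt g h (.s0 u v) = _
        simp only [St.nxt]
        rw [if_neg hv']
      rw [h3, h2]

/-- From a state of kind 3 we reach kind 0. -/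
theorem reach0 {g h : ℕ → Prop} (d : ℕ) : ∀ (u v : ℕ), g (u + d) →
    ∃ k, ∃ u' ≥ u, st g h (.s3 u v) k = .s0 u' (v + 2) := by
  induction d with
  | zero =>
    intro u v hu
    rw [Nat.add_zero] at hu
    refine ⟨1, u, le_rfl, ?_⟩
    change St.nxt g h (.s3 u v) = _
    simp only [St.nxt]
    rw [if_pos hu]
  | succ d ih =>
    intro u v hu
    by_cases hu' : g u
    · refine ⟨1, u, le_rfl, ?_⟩
      change St.nxt g h (.s3 u v) = _
      simp only [St.nxt]
      rw [if_pos hu']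
    · obtain ⟨k, u', h1, h2⟩ := ih (u + 1) v (by rwa [Nat.add_assoc, Nat.add_comm 1 d])
      refine ⟨1 + k, u', by omega, ?_⟩
      rw [st_add]
      have h3 : st g h (.s3 u v) 1 = .s3 (u + 1) v := by
        change St.nxt g h (.s3 u v) = _
        simp only [St.nxt]
        rw [if_neg hu']
      rw [h3, h2]

/-- Full rounds. -/
theorem rounds {g h : ℕ → Prop} (hg : ∀ n, ∃ m ≥ n, g m) (hh : ∀ n, ∃ m ≥ n, h m) (u v : ℕ)
    (N : ℕ) : ∃ k u' v', st g h (.s0 u v) k = .s0 u' v' ∧ N ≤ u' ∧ N ≤ v' := by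
  induction N with
  | zero => exact ⟨0, u, v, rfl, Nat.zero_le _, Nat.zero_le _⟩
  | succ N ih =>
    obtain ⟨k, u', v', h1, h2, h3⟩ := ih
    obtain ⟨m, hm, hm'⟩ := hh v'
    obtain ⟨k₂, v₂, h4, h5⟩ := reach3 (g := g) (h := h) (m - v') u' v' (by
      rwa [Nat.add_sub_cancel' hm])
    obtain ⟨m', hm₂, hm₂'⟩ := hg (u' + 2)
    obtain ⟨k₃, u₃, h6, h7⟩ := reach0 (g := g) (h := h) (m' - (u' + 2)) (u' + 2) v₂ (by
      rwa [Nat.add_sub_cancel' hm₂])
    refine ⟨k + k₂ + k₃, u₃, v₂ + 2, ?_, by omega, by omega⟩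
    rw [st_add, st_add, h1, h5, h7]

/-- Steps of size at most one. -/
structure Walk (b : ℕ → ℕ) : Prop where
  mono : ∀ n, b n ≤ b (n + 1)
  step : ∀ n, b (n + 1) ≤ b n + 1
  top : ∀ N, ∃ n, N ≤ b n

theorem Walk.monotone {b : ℕ → ℕ} (h : Walk b) : Monotone b := monotone_nat_of_le_succ h.mono

theorem Walk.le_add {b : ℕ → ℕ} (h : Walk b) (n k : ℕ) : b (n + k) ≤ b n + k := by
  induction k with
  | zero => exact le_rfl
  | succ k ih =>
    have := h.step (n + k)
    rw [← Nat.add_assoc]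
    omega

theorem walks {g h : ℕ → Prop} (hg : ∀ n, ∃ m ≥ n, g m) (hh : ∀ n, ∃ m ≥ n, h m) (u v : ℕ) :
    Walk (fun n => (st g h (.s0 u v) n).q1) ∧ Walk (fun n => (st g h (.s0 u v) n).q2) ∧
    Walk (fun n => (st g h (.s0 u v) n).q3) ∧ Walk (fun n => (st g h (.s0 u v) n).q4) := by
  have key : ∀ N, ∃ n, N ≤ (st g h (.s0 u v) n).q1 ∧ N ≤ (st g h (.s0 u v) n).q2 ∧
      N ≤ (st g h (.s0 u v) n).q3 ∧ N ≤ (st g h (.s0 u v) n).q4 := by
    intro N
    obtain ⟨k, u', v', h1, h2, h3⟩ := rounds hg hh u v N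
    refine ⟨k, ?_⟩
    rw [h1]
    have := St.uv_le (.s0 u' v')
    simp only [St.u, St.v] at this
    omega
  have hst : ∀ n, _ := fun n => St.step g h (st g h (.s0 u v) n)
  refine ⟨⟨fun n => ?_, fun n => ?_, fun N => ?_⟩, ⟨fun n => ?_, fun n => ?_, fun N => ?_⟩,
    ⟨fun n => ?_, fun n => ?_, fun N => ?_⟩, ⟨fun n => ?_, fun n => ?_, fun N => ?_⟩⟩
  · rw [st_succ]; exact (hst n).1.1
  · rw [st_succ]; exact (hst n).1.2
  · obtain ⟨n, hn⟩ := key N; exact ⟨n, hn.1⟩
  · rw [st_succ]; exact (hst n).2.1.1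
  · rw [st_succ]; exact (hst n).2.1.2
  · obtain ⟨n, hn⟩ := key N; exact ⟨n, hn.2.1⟩
  · rw [st_succ]; exact (hst n).2.2.1.1
  · rw [st_succ]; exact (hst n).2.2.1.2
  · obtain ⟨n, hn⟩ := key N; exact ⟨n, hn.2.2.1⟩
  · rw [st_succ]; exact (hst n).2.2.2.1
  · rw [st_succ]; exact (hst n).2.2.2.2
  · obtain ⟨n, hn⟩ := key N; exact ⟨n, hn.2.2.2⟩

/-! ### Piecewise linear functions -/

/-- The piecewise linear function with value `b n` at `n`. -/
noncomputable def pl (b : ℕ → ℕ) (t : ℝ) : ℝ :=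
  (b ⌊t⌋₊ : ℝ) + (t - ⌊t⌋₊) * ((b (⌊t⌋₊ + 1) : ℝ) - b ⌊t⌋₊)

theorem pl_eq (b : ℕ → ℕ) {t : ℝ} {n : ℕ} (h1 : (n : ℝ) ≤ t) (h2 : t ≤ n + 1) :
    pl b t = (b n : ℝ) + (t - n) * ((b (n + 1) : ℝ) - b n) := by
  rcases h2.lt_or_eq with h2 | h2
  · have h3 : ⌊t⌋₊ = n := by
      rw [Nat.floor_eq_iff (le_trans (Nat.cast_nonneg n) h1)]
      exact ⟨h1, h2⟩
    rw [pl, h3]
  · have h3 : ⌊t⌋₊ = n + 1 := by
      rw [h2]
      exact_mod_cast Nat.floor_natCast (n + 1)
    rw [pl, h3, h2]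
    push_cast
    ring

/-- The walk which starts at zero and joins `q` at time `n₀`. -/
def late (q : ℕ → ℕ) (n₀ : ℕ) (n : ℕ) : ℕ := if n < n₀ then min n (q 0) else q (n - n₀)

theorem late_walk {q : ℕ → ℕ} (hq : Walk q) {n₀ : ℕ} (h0 : q 0 < n₀) : Walk (late q n₀) where
  mono n := by
    unfold late
    rcases lt_trichotomy (n + 1) n₀ with h | h | h
    · rw [if_pos (show n < n₀ by omega), if_pos h]
      omega
    · rw [if_pos (show n < n₀ by omega), if_neg (show ¬ n + 1 < n₀ by omega)]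
      have h1 : n + 1 - n₀ = 0 := by omega
      rw [h1]
      omega
    · rw [if_neg (show ¬ n < n₀ by omega), if_neg (show ¬ n + 1 < n₀ by omega)]
      have h1 : n + 1 - n₀ = (n - n₀) + 1 := by omega
      rw [h1]
      exact hq.mono _
  step n := by
    unfold late
    rcases lt_trichotomy (n + 1) n₀ with h | h | h
    · rw [if_pos (show n < n₀ by omega), if_pos h]
      omega
    · rw [if_pos (show n < n₀ by omega), if_neg (show ¬ n + 1 < n₀ by omega)]
      have h1 : n + 1 - n₀ = 0 := by omega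
      rw [h1]
      omega
    · rw [if_neg (show ¬ n < n₀ by omega), if_neg (show ¬ n + 1 < n₀ by omega)]
      have h1 : n + 1 - n₀ = (n - n₀) + 1 := by omega
      rw [h1]
      exact hq.step _
  top N := by
    obtain ⟨n, hn⟩ := hq.top N
    refine ⟨n + n₀, ?_⟩
    unfold late
    rw [if_neg (by omega)]
    have h1 : n + n₀ - n₀ = n := by omega
    rwa [h1]

theorem late_zero (q : ℕ → ℕ) {n₀ : ℕ} (h0 : q 0 < n₀) : late q n₀ 0 = 0 := by
  unfold late
  rw [if_pos (by omega)]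
  omega

theorem late_add (q : ℕ → ℕ) (n₀ n : ℕ) : late q n₀ (n₀ + n) = q n := by
  unfold late
  rw [if_neg (by omega)]
  congr 1
  omega

theorem pl_bounds {b : ℕ → ℕ} (hb : Walk b) {x y : ℝ} (hx : 0 ≤ x) (hxy : x ≤ y) :
    pl b x ≤ pl b y ∧ pl b y - pl b x ≤ y - x := by
  obtain ⟨n, hn⟩ : ∃ n, n = ⌊x⌋₊ := ⟨_, rfl⟩
  obtain ⟨k, hk⟩ : ∃ k, k = ⌊y⌋₊ := ⟨_, rfl⟩
  have h1 : (n : ℝ) ≤ x := by rw [hn]; exact Nat.floor_le hx
  have h2 : x < n + 1 := by rw [hn]; exact Nat.lt_floor_add_one x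
  have h3 : (k : ℝ) ≤ y := by rw [hk]; exact Nat.floor_le (hx.trans hxy)
  have h4 : y < k + 1 := by rw [hk]; exact Nat.lt_floor_add_one y
  have hnk : n ≤ k := by rw [hn, hk]; exact Nat.floor_le_floor hxy
  have hstep : ∀ j, (0 : ℝ) ≤ (b (j + 1) : ℝ) - b j ∧ (b (j + 1) : ℝ) - b j ≤ 1 := by
    intro j
    have h5 : (b j : ℝ) ≤ b (j + 1) := by exact_mod_cast hb.mono j
    have h6 : (b (j + 1) : ℝ) ≤ b j + 1 := by exact_mod_cast hb.step j
    constructor <;> linarith
  rw [pl_eq b h1 h2.le, pl_eq b h3 h4.le]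
  rcases hnk.eq_or_lt with h | h
  · subst h
    obtain ⟨h5, h6⟩ := hstep n
    constructor
    · nlinarith
    · nlinarith
  · obtain ⟨h5, h6⟩ := hstep n
    obtain ⟨h7, h8⟩ := hstep k
    have h9 : (b (n + 1) : ℝ) ≤ b k := by exact_mod_cast hb.monotone h
    have h10 : (b k : ℝ) ≤ b (n + 1) + (k - (n + 1)) := by
      have h11 := hb.le_add (n + 1) (k - (n + 1))
      have h12 : n + 1 + (k - (n + 1)) = k := by omega
      rw [h12] at h11
      have h13 : ((k - (n + 1) : ℕ) : ℝ) = (k : ℝ) - (n + 1) := by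
        rw [Nat.cast_sub h]
        push_cast
        ring
      rw [← h13]
      exact_mod_cast h11
    constructor
    · nlinarith
    · nlinarith

open Pool.Agent.TH774.TD in
theorem nice_pl {b : ℕ → ℕ} (hb : Walk b) (h0 : b 0 = 0) : Nice (pl b) := by
  have hz : pl b 0 = 0 := by
    have h1 := pl_eq b (t := 0) (n := 0) (by simp) (by simp)
    rw [h1, h0]
    simp
  refine ⟨fun x hx => ?_, fun x hx => ?_, fun x y hx hxy => (pl_bounds hb hx hxy).1,
    fun x y hx hxy => (pl_bounds hb hx hxy).2, ?_⟩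
  · have := (pl_bounds hb le_rfl hx).1
    rwa [hz] at this
  · have := (pl_bounds hb le_rfl hx).2
    rw [hz] at this
    linarith
  · refine tendsto_atTop.2 fun C => ?_
    obtain ⟨N, hN⟩ := exists_nat_ge C
    obtain ⟨n, hn⟩ := hb.top N
    filter_upwards [eventually_ge_atTop (n : ℝ)] with x hx
    have h1 := (pl_bounds hb (Nat.cast_nonneg n) hx).1
    have h2 : pl b (n : ℝ) = b n := by
      rw [pl_eq b (n := n) le_rfl (by linarith)]
      simp
    rw [h2] at h1
    have h3 : (N : ℝ) ≤ b n := by exact_mod_cast hn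
    linarith

end Pool.Agent.Helper67.TD
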