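import Pool.Agent.Helper67.TD.Track

set_option autoImplicit false

namespace Pool.Agent.Helper67.TD

open Filter Topology Pool.Agent.TH774.TD
open Pool.Agent.Helper227 (TLe)

variable {G : ℕ → Type*} [∀ m, Group (G m)] [∀ m, PseudoMetricSpace (G m)]

section

variable {ω : ℝ → ℝ} {ε : ℕ → ℝ}

theorem near_track (hω : Modulus ω) (hε : Tendsto ε atTop (𝓝 0)) {L : ∀ m, ℝ → G m} (hL : IsTrack ω ε L)
    {a b : ℕ → ℝ} (ha : ∀ m, 0 ≤ a m) (hb : ∀ m, 0 ≤ b m)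
    (h : Tendsto (fun m => a m - b m) atTop (𝓝 0)) :
    Near (fun m => L m (a m)) (fun m => L m (b m)) := by
  have h1 : Tendsto (fun m => 2 * ω |a m - b m| + 2 * ε m) atTop (𝓝 0) := by
    have h5 := h.abs
    rw [abs_zero] at h5
    have h2 := ((hω.zero.comp h5).const_mul 2).add (hε.const_mul 2)
    simpa using h2
  have h3 : ∀ᶠ m in atTop, |a m - b m| ≤ 1 := by
    have h4 := h.abs
    rw [abs_zero] at h4
    exact (h4.eventually (gt_mem_nhds one_pos)).mono fun m hm => le_of_lt hm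
  unfold Near
  refine squeeze_zero' (Eventually.of_forall fun m => dist_nonneg) ?_ h1
  filter_upwards [h3] with m hm
  exact hL.close m _ _ (ha m) (hb m) hm

theorem sq_nonneg' (x : ℕ → Bool) (m : ℕ) : 0 ≤ sq x m := Real.sqrt_nonneg _

variable [∀ m, IsIsometricSMul (G m) (G m)] [∀ m, IsIsometricSMul (G m)ᵐᵒᵖ (G m)]

omit [∀ m, IsIsometricSMul (G m)ᵐᵒᵖ (G m)] in
theorem dist_mul_le [∀ m, IsIsometricSMul (G m)ᵐᵒᵖ (G m)] (m : ℕ) (a b a' b' : G m) :
    dist (a * b) (a' * b') ≤ dist a a' + dist b b' := by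
  refine (dist_triangle _ (a' * b) _).trans ?_
  rw [dist_mul_right, dist_mul_left]

theorem Near.mul {a b a' b' : ∀ m, G m} (h : Near a a') (h' : Near b b') :
    Near (fun m => a m * b m) (fun m => a' m * b' m) := by
  unfold Near at *
  have h1 := h.add h'
  rw [add_zero] at h1
  exact squeeze_zero (fun m => dist_nonneg) (fun m => dist_mul_le m _ _ _ _) h1

theorem Near.inv {a a' : ∀ m, G m} (h : Near a a') :
    Near (fun m => (a m)⁻¹) (fun m => (a' m)⁻¹) := by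
  unfold Near at *
  simpa only [dist_inv_inv] using h

/-- Four reals in the cone of `z` whose track values multiply to the end point number `i`. -/
theorem four (hω : Modulus ω) (hε : Tendsto ε atTop (𝓝 0)) {γ : ℕ → ∀ m, ℝ → G m}
    (hγ : ∀ i, IsPath ω ε (γ i)) (z : ℕ → Bool) (i : ℕ) :
    ∃ y₁ y₂ y₃ y₄, TLe z y₁ ∧ TLe z y₂ ∧ TLe z y₃ ∧ TLe z y₄ ∧
      Near (fun m => track γ m (sq y₁ m) * (track γ m (sq y₂ m))⁻¹ * track γ m (sq y₃ m) *
        (track γ m (sq y₄ m))⁻¹) (fun m => γ i m 1) := by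
  have h0 : ∀ i m, γ i m 0 = 1 := fun i m => (hγ i).start m
  have hL := isTrack_track hω hγ
  obtain ⟨s, hs0, hs, hw⟩ := walk_sq z
  obtain ⟨u₀, -, hu₀⟩ := exists_col (2 * i) 0
  have hg : ∀ n, ∃ m ≥ n, gd i m := fun n => exists_col (2 * i) n
  have hh : ∀ n, ∃ m ≥ n, hd i m := fun n => exists_col (2 * i + 1) n
  obtain ⟨w1, w2, w3, w4⟩ := walks hg hh u₀ 0
  set S : ℕ → St := st (gd i) (hd i) (.s0 u₀ 0) with hS
  have hS0 : S 0 = .s0 u₀ 0 := rfl
  have hSs : ∀ n, S (n + 1) = St.nxt (gd i) (hd i) (S n) := fun n => st_succ _ _ _ _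
  have hok : ∀ n, (S n).Ok (gd i) (hd i) := fun n => ok_st (show St.Ok (gd i) (hd i) (.s0 u₀ 0) from hu₀) n
  obtain ⟨n₀, hn₀⟩ : ∃ n₀, n₀ = u₀ + 2 := ⟨_, rfl⟩
  have z1 : (fun n => (S n).q1) 0 < n₀ := by
    change (S 0).q1 < n₀
    rw [hS0, hn₀]
    simp only [St.q1]
    omega
  have z2 : (fun n => (S n).q2) 0 < n₀ := by
    change (S 0).q2 < n₀
    rw [hS0, hn₀]
    simp only [St.q2]
    omega
  have z3 : (fun n => (S n).q3) 0 < n₀ := by
    change (S 0).q3 < n₀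
    rw [hS0, hn₀]
    simp only [St.q3]
    omega
  have z4 : (fun n => (S n).q4) 0 < n₀ := by
    change (S 0).q4 < n₀
    rw [hS0, hn₀]
    simp only [St.q4]
    omega
  have n1 := nice_pl (late_walk w1 z1) (late_zero _ z1)
  have n2 := nice_pl (late_walk w2 z2) (late_zero _ z2)
  have n3 := nice_pl (late_walk w3 z3) (late_zero _ z3)
  have n4 := nice_pl (late_walk w4 z4) (late_zero _ z4)
  obtain ⟨y₁, hy1, e1⟩ := hw _ n1
  obtain ⟨y₂, hy2, e2⟩ := hw _ n2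
  obtain ⟨y₃, hy3, e3⟩ := hw _ n3
  obtain ⟨y₄, hy4, e4⟩ := hw _ n4
  refine ⟨y₁, y₂, y₃, y₄, hy1, hy2, hy3, hy4, ?_⟩
  have k1 := near_track hω hε hL (sq_nonneg' y₁) (fun m => n1.nonneg _ (hs0 m)) e1
  have k2 := near_track hω hε hL (sq_nonneg' y₂) (fun m => n2.nonneg _ (hs0 m)) e2
  have k3 := near_track hω hε hL (sq_nonneg' y₃) (fun m => n3.nonneg _ (hs0 m)) e3
  have k4 := near_track hω hε hL (sq_nonneg' y₄) (fun m => n4.nonneg _ (hs0 m)) e4
  refine (((k1.mul k2.inv).mul k3).mul k4.inv).trans ?_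
  unfold Near
  refine tendsto_const_nhds.congr' ?_
  filter_upwards [hs.eventually_ge_atTop (n₀ : ℝ)] with m hm
  have f1 : n₀ ≤ ⌊s m⌋₊ := Nat.le_floor hm
  obtain ⟨n, hn⟩ := Nat.exists_eq_add_of_le f1
  have f2 : ((n₀ + n : ℕ) : ℝ) ≤ s m := by rw [← hn]; exact Nat.floor_le (hs0 m)
  have f3 : s m ≤ ((n₀ + n : ℕ) : ℝ) + 1 := by rw [← hn]; exact (Nat.lt_floor_add_one _).le
  have f4 : ∀ q : ℕ → ℕ, pl (late q n₀) (s m) = mid (s m - ((n₀ + n : ℕ) : ℝ)) (q n) (q (n + 1)) := by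
    intro q
    rw [pl_eq _ f2 f3, late_add, Nat.add_assoc, late_add]
    rfl
  have f5 := formula h0 m i (r := s m - ((n₀ + n : ℕ) : ℝ))
    ⟨by linarith, by linarith⟩ (hok n)
  simp only [f4, hSs]
  rw [f5, dist_self]

end

end Pool.Agent.Helper67.TD
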