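import Pool.Agent.Helper67.TD.Auto

set_option autoImplicit false

namespace Pool.Agent.Helper67.TD

open Filter Topology Pool.Agent.TH774.TD

variable {G : ℕ → Type*} [∀ m, Group (G m)] [∀ m, PseudoMetricSpace (G m)]

/-- The distance of the two sequences tends to zero. -/
def Near (u v : ∀ m, G m) : Prop := Tendsto (fun m => dist (u m) (v m)) atTop (𝓝 0)

omit [∀ m, Group (G m)] in
theorem Near.refl (u : ∀ m, G m) : Near u u := by
  unfold Near
  simp

omit [∀ m, Group (G m)] in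
theorem Near.symm {u v : ∀ m, G m} (h : Near u v) : Near v u := by
  unfold Near at h ⊢
  simpa only [dist_comm] using h

omit [∀ m, Group (G m)] in
theorem Near.trans {u v w : ∀ m, G m} (h : Near u v) (h' : Near v w) : Near u w := by
  unfold Near at *
  have h1 := h.add h'
  rw [add_zero] at h1
  exact squeeze_zero (fun m => dist_nonneg) (fun m => dist_triangle _ _ _) h1

/-- A modulus of continuity. -/
structure Modulus (ω : ℝ → ℝ) : Prop where
  mono : Monotone ω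
  zero : Tendsto ω (𝓝 0) (𝓝 0)

theorem Modulus.nonneg {ω : ℝ → ℝ} (h : Modulus ω) {t : ℝ} (ht : 0 ≤ t) : 0 ≤ ω t := by
  have h1 : ω 0 = 0 := tendsto_nhds_unique (tendsto_pure_nhds ω 0)
    (h.zero.mono_left (pure_le_nhds 0))
  rw [← h1]
  exact h.mono ht

/-- The sequence of paths `γ m : [0, 1] → G m` starts at the neutral elements and has the modulus of
continuity `ω` up to errors `ε m`. -/
structure IsPath (ω : ℝ → ℝ) (ε : ℕ → ℝ) (γ : ∀ m, ℝ → G m) : Prop where
  start : ∀ m, γ m 0 = 1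
  close : ∀ m, ∀ s ∈ Set.Icc (0 : ℝ) 1, ∀ t ∈ Set.Icc (0 : ℝ) 1,
    dist (γ m s) (γ m t) ≤ ω |s - t| + ε m

/-- The sequences of end points of such sequences of paths. -/
def Reach (ω : ℝ → ℝ) (ε : ℕ → ℝ) : Set (∀ m, G m) := {g | ∃ γ, IsPath ω ε γ ∧ ∀ m, γ m 1 = g m}

/-- Sequences of infinitely long paths `L m : [0, ∞) → G m` with modulus of continuity `2 ω` for
distances up to `1`, up to errors `2 ε m`, which stay in `Reach ω ε`. -/
structure IsTrack (ω : ℝ → ℝ) (ε : ℕ → ℝ) (L : ∀ m, ℝ → G m) : Prop where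
  close : ∀ m s t, 0 ≤ s → 0 ≤ t → |s - t| ≤ 1 →
    dist (L m s) (L m t) ≤ 2 * ω |s - t| + 2 * ε m
  reach : ∀ σ : ℕ → ℝ, (∀ m, 0 ≤ σ m) → (fun m => L m (σ m)) ∈ Reach ω ε

/-- Number of the colour of the segment `q`. -/
def col (q : ℕ) : ℕ := (q / 2).unpair.1

/-- The segments of the track. -/
noncomputable def seg (γ : ℕ → ∀ m, ℝ → G m) (m q : ℕ) (r : ℝ) : G m :=
  if q % 2 = 0 then γ (col q / 2) m r
  else if col q % 2 = 0 then γ (col q / 2) m 1 * (γ (col q / 2) m r)⁻¹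
  else (γ (col q / 2) m r)⁻¹ * γ (col q / 2) m 1

/-- The track of a family of paths. -/
noncomputable def track (γ : ℕ → ∀ m, ℝ → G m) (m : ℕ) (t : ℝ) : G m :=
  seg γ m ⌊t⌋₊ (t - ⌊t⌋₊)

section

variable {ω : ℝ → ℝ} {ε : ℕ → ℝ} {γ : ℕ → ∀ m, ℝ → G m}

omit [∀ m, PseudoMetricSpace (G m)] in
theorem seg_glue (h0 : ∀ i m, γ i m 0 = 1) (m q : ℕ) : seg γ m q 1 = seg γ m (q + 1) 0 := by
  rcases Nat.mod_two_eq_zero_or_one q with hq | hq
  · have h1 : (q + 1) % 2 = 1 := by omega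
    have h2 : col (q + 1) = col q := by
      unfold col
      have h3 : (q + 1) / 2 = q / 2 := by omega
      rw [h3]
    rcases Nat.mod_two_eq_zero_or_one (col q) with hc | hc
    · simp [seg, hq, h1, h2, hc, h0]
    · simp [seg, hq, h1, h2, hc, h0]
  · have h1 : (q + 1) % 2 = 0 := by omega
    rcases Nat.mod_two_eq_zero_or_one (col q) with hc | hc
    · simp [seg, hq, h1, hc, h0]
    · simp [seg, hq, h1, hc, h0]

omit [∀ m, PseudoMetricSpace (G m)] in
theorem track_eq (h0 : ∀ i m, γ i m 0 = 1) (m : ℕ) {q : ℕ} {t : ℝ} (h1 : (q : ℝ) ≤ t)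
    (h2 : t ≤ q + 1) : track γ m t = seg γ m q (t - q) := by
  rcases h2.lt_or_eq with h2 | h2
  · have h3 : ⌊t⌋₊ = q := by
      rw [Nat.floor_eq_iff (le_trans (Nat.cast_nonneg q) h1)]
      exact ⟨h1, h2⟩
    rw [track, h3]
  · have h3 : ⌊t⌋₊ = q + 1 := by
      rw [h2]
      exact_mod_cast Nat.floor_natCast (q + 1)
    rw [track, h3, h2]
    have h4 : (q : ℝ) + 1 - ((q + 1 : ℕ) : ℝ) = 0 := by push_cast; ring
    have h5 : (q : ℝ) + 1 - q = 1 := by ring
    rw [h4, h5, seg_glue h0]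

variable [∀ m, IsIsometricSMul (G m) (G m)] [∀ m, IsIsometricSMul (G m)ᵐᵒᵖ (G m)]

theorem seg_dist (hγ : ∀ i, IsPath ω ε (γ i)) (m q : ℕ) {r s : ℝ} (hr : r ∈ Set.Icc (0 : ℝ) 1)
    (hs : s ∈ Set.Icc (0 : ℝ) 1) : dist (seg γ m q r) (seg γ m q s) ≤ ω |r - s| + ε m := by
  have h1 := (hγ (col q / 2)).close m r hr s hs
  unfold seg
  split_ifs
  · exact h1
  · rw [dist_mul_left, dist_inv_inv]
    exact h1
  · rw [dist_mul_right, dist_inv_inv]
    exact h1

theorem track_close (hω : Modulus ω) (hγ : ∀ i, IsPath ω ε (γ i)) (m : ℕ) {s t : ℝ} (hs : 0 ≤ s)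
    (hst : s ≤ t) (h : t - s ≤ 1) :
    dist (track γ m s) (track γ m t) ≤ 2 * ω (t - s) + 2 * ε m := by
  have h0 : ∀ i m, γ i m 0 = 1 := fun i m => (hγ i).start m
  have h00 : ω 0 = 0 := tendsto_nhds_unique (tendsto_pure_nhds ω 0)
    (hω.zero.mono_left (pure_le_nhds 0))
  have hε : 0 ≤ ε m := by
    have h1 := (hγ 0).close m 0 (by simp) 0 (by simp)
    simpa [h00] using h1
  have hwn := hω.nonneg (t := t - s) (by linarith)
  obtain ⟨q, hq⟩ : ∃ q, q = ⌊s⌋₊ := ⟨_, rfl⟩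
  have h1 : (q : ℝ) ≤ s := by rw [hq]; exact Nat.floor_le hs
  have h2 : s < q + 1 := by rw [hq]; exact Nat.lt_floor_add_one s
  rw [track_eq h0 m h1 h2.le]
  rcases le_or_gt t (q + 1) with h3 | h3
  · rw [track_eq h0 m (h1.trans hst) h3]
    have h4 := seg_dist hγ m q (r := s - q) (s := t - q) ⟨by linarith, by linarith⟩
      ⟨by linarith, by linarith⟩
    have h5 : |s - q - (t - q)| = t - s := by
      rw [abs_of_nonpos (by linarith)]
      ring
    rw [h5] at h4
    linarith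
  · have h6 : ((q + 1 : ℕ) : ℝ) = (q : ℝ) + 1 := by push_cast; ring
    rw [track_eq h0 m (q := q + 1) (by rw [h6]; exact h3.le) (by rw [h6]; linarith)]
    refine (dist_triangle _ (seg γ m q 1) _).trans ?_
    have h4 := seg_dist hγ m q (r := s - q) (s := 1) ⟨by linarith, by linarith⟩ (by simp)
    have h5 := seg_dist hγ m (q + 1) (r := 0) (s := t - ((q + 1 : ℕ) : ℝ)) (by simp)
      ⟨by rw [h6]; linarith, by rw [h6]; linarith⟩
    rw [← seg_glue h0] at h5
    have h7 : |s - q - 1| = 1 - (s - q) := by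
      rw [abs_of_nonpos (by linarith)]
      ring
    have h8 : |0 - (t - ((q + 1 : ℕ) : ℝ))| = t - (q + 1) := by
      rw [h6, abs_of_nonpos (by linarith)]
      ring
    rw [h7] at h4
    rw [h8] at h5
    have h9 : ω (1 - (s - q)) ≤ ω (t - s) := hω.mono (by linarith)
    have h10 : ω (t - (q + 1)) ≤ ω (t - s) := hω.mono (by linarith)
    linarith

theorem track_reach (hω : Modulus ω) (hγ : ∀ i, IsPath ω ε (γ i)) (σ : ℕ → ℝ) (hσ : ∀ m, 0 ≤ σ m) :
    (fun m => track γ m (σ m)) ∈ Reach ω ε := by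
  refine ⟨fun m s =>
    if ⌊σ m⌋₊ % 2 = 0 then γ (col ⌊σ m⌋₊ / 2) m (s * (σ m - ⌊σ m⌋₊))
    else if col ⌊σ m⌋₊ % 2 = 0 then
      γ (col ⌊σ m⌋₊ / 2) m 1 * (γ (col ⌊σ m⌋₊ / 2) m (1 - s * (1 - (σ m - ⌊σ m⌋₊))))⁻¹
    else (γ (col ⌊σ m⌋₊ / 2) m (1 - s * (1 - (σ m - ⌊σ m⌋₊))))⁻¹ * γ (col ⌊σ m⌋₊ / 2) m 1,
    ⟨fun m => ?_, fun m s hs t ht => ?_⟩, fun m => ?_⟩
  · simp only [zero_mul, sub_zero]
    split_ifs
    · exact (hγ _).start m
    · simp
    · simp
  · have h1 : (⌊σ m⌋₊ : ℝ) ≤ σ m := Nat.floor_le (hσ m)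
    have h2 : σ m < ⌊σ m⌋₊ + 1 := Nat.lt_floor_add_one _
    obtain ⟨r, hr⟩ : ∃ r, r = σ m - ⌊σ m⌋₊ := ⟨_, rfl⟩
    rw [← hr]
    have h3 : 0 ≤ r := by rw [hr]; linarith
    have h4 : r ≤ 1 := by rw [hr]; linarith
    have hs0 := hs.1
    have hs1 := hs.2
    have ht0 := ht.1
    have ht1 := ht.2
    have a1 : ∀ x : ℝ, 0 ≤ x → x ≤ 1 → ∀ y : ℝ, 0 ≤ y → y ≤ 1 → 0 ≤ x * y ∧ x * y ≤ 1 := by
      intro x hx hx' y hy hy'
      constructor
      · positivity
      · nlinarith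
    have e1 : ∀ c : ℝ, 0 ≤ c → c ≤ 1 → ω |s * c - t * c| + ε m ≤ ω |s - t| + ε m := by
      intro c hc hc'
      rw [← sub_mul, abs_mul, abs_of_nonneg hc]
      have h6 : |s - t| * c ≤ |s - t| := mul_le_of_le_one_right (abs_nonneg _) hc'
      have h7 := hω.mono h6
      linarith
    have e2 : ∀ c : ℝ, |1 - s * c - (1 - t * c)| = |s * c - t * c| := by
      intro c
      rw [← abs_neg]
      congr 1
      ring
    split_ifs
    · exact ((hγ _).close m _ (a1 s hs0 hs1 r h3 h4) _ (a1 t ht0 ht1 r h3 h4)).trans (e1 r h3 h4)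
    · rw [dist_mul_left, dist_inv_inv]
      have b1 := a1 s hs0 hs1 (1 - r) (by linarith) (by linarith)
      have b2 := a1 t ht0 ht1 (1 - r) (by linarith) (by linarith)
      refine ((hγ _).close m _ ⟨by linarith [b1.2], by linarith [b1.1]⟩ _
        ⟨by linarith [b2.2], by linarith [b2.1]⟩).trans ?_
      rw [e2]
      exact e1 _ (by linarith) (by linarith)
    · rw [dist_mul_right, dist_inv_inv]
      have b1 := a1 s hs0 hs1 (1 - r) (by linarith) (by linarith)
      have b2 := a1 t ht0 ht1 (1 - r) (by linarith) (by linarith)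
      refine ((hγ _).close m _ ⟨by linarith [b1.2], by linarith [b1.1]⟩ _
        ⟨by linarith [b2.2], by linarith [b2.1]⟩).trans ?_
      rw [e2]
      exact e1 _ (by linarith) (by linarith)
  · simp only [one_mul, track, seg]
    have h1 : 1 - (1 - (σ m - (⌊σ m⌋₊ : ℝ))) = σ m - ⌊σ m⌋₊ := by ring
    rw [h1]

theorem isTrack_track (hω : Modulus ω) (hγ : ∀ i, IsPath ω ε (γ i)) : IsTrack ω ε (track γ) where
  close m s t hs ht h := by
    rcases le_total s t with hst | hst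
    · have h1 : |s - t| = t - s := by
        rw [abs_of_nonpos (by linarith)]
        ring
      rw [h1] at h ⊢
      exact track_close hω hγ m hs hst h
    · have h1 : |s - t| = s - t := abs_of_nonneg (by linarith)
      rw [h1] at h ⊢
      rw [dist_comm]
      exact track_close hω hγ m ht hst h
  reach := track_reach hω hγ

end

/-! ### The product formula -/

section

variable {γ : ℕ → ∀ m, ℝ → G m}

/-- Positions where the first pair works. -/
def gd (i : ℕ) (u : ℕ) : Prop := u % 2 = 0 ∧ col u = 2 * i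

/-- Positions where the second pair works. -/
def hd (i : ℕ) (v : ℕ) : Prop := v % 2 = 0 ∧ col v = 2 * i + 1

theorem exists_col (c n : ℕ) : ∃ u ≥ n, u % 2 = 0 ∧ col u = c := by
  refine ⟨2 * Nat.pair c n, ?_, by omega, ?_⟩
  · have := Nat.right_le_pair c n
    omega
  · unfold col
    have h1 : 2 * Nat.pair c n / 2 = Nat.pair c n := by omega
    rw [h1, Nat.unpair_pair]

omit [∀ m, PseudoMetricSpace (G m)] in
/-- The value of the track at the interpolated position. -/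
theorem track_val (h0 : ∀ i m, γ i m 0 = 1) (m b : ℕ) {r : ℝ} (hr : r ∈ Set.Icc (0 : ℝ) 1) :
    track γ m ((b : ℝ) + r * ((b : ℝ) - b)) = seg γ m b 0 ∧
    track γ m ((b : ℝ) + r * (((b + 1 : ℕ) : ℝ) - b)) = seg γ m b r := by
  constructor
  · have h1 : (b : ℝ) + r * ((b : ℝ) - b) = b := by ring
    rw [h1, track_eq h0 m (q := b) le_rfl (by linarith), sub_self]
  · have h1 : (b : ℝ) + r * (((b + 1 : ℕ) : ℝ) - b) = b + r := by push_cast; ring
    rw [h1, track_eq h0 m (q := b) (by linarith [hr.1]) (by linarith [hr.2])]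
    congr 1
    ring

omit [∀ m, PseudoMetricSpace (G m)] in
theorem seg_even (h0 : ∀ i m, γ i m 0 = 1) (m : ℕ) {q : ℕ} (hq : q % 2 = 0) :
    seg γ m q 0 = 1 := by
  simp [seg, hq, h0]

omit [∀ m, PseudoMetricSpace (G m)] in
theorem seg_gd (m : ℕ) {i u : ℕ} (h : gd i u) (r : ℝ) :
    seg γ m u r = γ i m r ∧ seg γ m (u + 1) r = γ i m 1 * (γ i m r)⁻¹ := by
  obtain ⟨h1, h2⟩ := h
  have h3 : (u + 1) % 2 = 1 := by omega
  have h4 : col (u + 1) = col u := by
    unfold col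
    have h5 : (u + 1) / 2 = u / 2 := by omega
    rw [h5]
  have h5 : 2 * i / 2 = i := by omega
  constructor
  · simp [seg, h1, h2]
  · simp [seg, h3, h4, h2]

omit [∀ m, PseudoMetricSpace (G m)] in
theorem seg_hd (m : ℕ) {i v : ℕ} (h : hd i v) (r : ℝ) :
    seg γ m v r = γ i m r ∧ seg γ m (v + 1) r = (γ i m r)⁻¹ * γ i m 1 := by
  obtain ⟨h1, h2⟩ := h
  have h3 : (v + 1) % 2 = 1 := by omega
  have h4 : col (v + 1) = col v := by
    unfold col
    have h5 : (v + 1) / 2 = v / 2 := by omega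
    rw [h5]
  have h5 : (2 * i + 1) / 2 = i := by omega
  have h6 : (2 * i + 1) % 2 = 1 := by omega
  constructor
  · simp [seg, h1, h2, h5]
  · simp [seg, h3, h4, h2, h5, h6]

/-- Position between two numbers. -/
def mid (r : ℝ) (b b' : ℕ) : ℝ := (b : ℝ) + r * ((b' : ℝ) - b)

omit [∀ m, PseudoMetricSpace (G m)] in
theorem formula (h0 : ∀ i m, γ i m 0 = 1) (m i : ℕ) {r : ℝ} (hr : r ∈ Set.Icc (0 : ℝ) 1) {s : St}
    (hs : s.Ok (gd i) (hd i)) :
    track γ m (mid r s.q1 (St.nxt (gd i) (hd i) s).q1) *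
      (track γ m (mid r s.q2 (St.nxt (gd i) (hd i) s).q2))⁻¹ *
      track γ m (mid r s.q3 (St.nxt (gd i) (hd i) s).q3) *
      (track γ m (mid r s.q4 (St.nxt (gd i) (hd i) s).q4))⁻¹ = γ i m 1 := by
  have t0 : ∀ b : ℕ, track γ m (mid r b b) = seg γ m b 0 := fun b => (track_val h0 m b hr).1
  have t1 : ∀ b : ℕ, track γ m (mid r b (b + 1)) = seg γ m b r := fun b => (track_val h0 m b hr).2
  cases s with
  | s0 u v =>
    have hu : gd i u := hs
    have e1 := seg_gd (γ := γ) m hu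
    by_cases hv : hd i v
    · have e2 := seg_hd (γ := γ) m hv
      simp only [St.nxt, hv, if_true, St.q1, St.q2, St.q3, St.q4]
      rw [t0, t1, t1, t0, (e1 0).2, (e1 r).1, (e2 r).1, seg_even h0 m hv.1, h0]
      group
    · simp only [St.nxt, hv, if_false, St.q1, St.q2, St.q3, St.q4]
      rw [t0, t0, t1, (e1 0).2, seg_even h0 m hu.1, h0]
      group
  | s1 u v =>
    obtain ⟨hu, hv⟩ := hs
    have e1 := seg_gd (γ := γ) m hu
    have e2 := seg_hd (γ := γ) m hv
    simp only [St.nxt, St.q1, St.q2, St.q3, St.q4]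
    rw [t0, t1, t0, t1, (e1 0).2, (e1 r).2, (e2 0).2, (e2 r).1, h0]
    group
  | s2 u v =>
    obtain ⟨hu, hv⟩ := hs
    have e1 := seg_gd (γ := γ) m hu
    have e2 := seg_hd (γ := γ) m hv
    simp only [St.nxt, St.q1, St.q2, St.q3, St.q4]
    rw [t1, t0, t0, t1, (e1 r).2, (e2 0).2, (e2 r).2,
      seg_even h0 m (show (u + 2) % 2 = 0 by have := hu.1; omega), h0]
    group
  | s3 u v =>
    have hv : hd i v := hs
    have e2 := seg_hd (γ := γ) m hv
    have h2 : (v + 2) % 2 = 0 := by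
      have := hv.1
      omega
    by_cases hu : gd i u
    · have e1 := seg_gd (γ := γ) m hu
      simp only [St.nxt, hu, if_true, St.q1, St.q2, St.q3, St.q4]
      rw [t1, t0, t1, t0, (e1 r).1, seg_even h0 m hu.1, (e2 r).2, seg_even h0 m h2]
      group
    · simp only [St.nxt, hu, if_false, St.q1, St.q2, St.q3, St.q4]
      rw [t1, t0, t0, (e2 0).2, seg_even h0 m h2, h0]
      group

end

end Pool.Agent.Helper67.TD
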